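import Mathlib
import Pool.Agent.W268.Dy.Stm

/-! # Dyadic model: weighted difference estimate -/

namespace Pool.Agent.W578.Dy.Dif

open Finset Filter Topology MeasureTheory
open Pool.Agent.W268.Dy

variable {K : ℕ}

lemma gsum_congr {n : ℕ} {f g : Node K → ℝ} (h : ∀ w, w.length = n → f w = g w) :
    gsum n f = gsum n g := by
  induction n generalizing f g with
  | zero => exact h [] rfl
  | succ n ih =>
    unfold gsum
    refine Finset.sum_congr rfl fun c _ => ih fun w hw => h (c :: w) ?_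
    rw [List.length_cons, hw]

lemma gsum_le {n : ℕ} {f g : Node K → ℝ} (h : ∀ w, w.length = n → f w ≤ g w) :
    gsum n f ≤ gsum n g := by
  induction n generalizing f g with
  | zero => exact h [] rfl
  | succ n ih =>
    unfold gsum
    refine Finset.sum_le_sum fun c _ => ih fun w hw => h (c :: w) ?_
    rw [List.length_cons, hw]

lemma gsum_zero (n : ℕ) : gsum n (fun _ : Node K => (0 : ℝ)) = 0 := by
  induction n with
  | zero => rfl
  | succ n ih =>
    unfold gsum
    exact Finset.sum_eq_zero fun c _ => ih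

lemma gsum_nonneg {n : ℕ} {f : Node K → ℝ} (h : ∀ w, w.length = n → 0 ≤ f w) :
    0 ≤ gsum n f := by
  rw [← gsum_zero (K := K) n]
  exact gsum_le h

lemma gsum_add (n : ℕ) (f g : Node K → ℝ) :
    gsum n (fun w => f w + g w) = gsum n f + gsum n g := by
  induction n generalizing f g with
  | zero => rfl
  | succ n ih =>
    unfold gsum
    rw [← Finset.sum_add_distrib]
    exact Finset.sum_congr rfl fun c _ => ih _ _

lemma gsum_mul (n : ℕ) (c : ℝ) (f : Node K → ℝ) :
    gsum n (fun w => c * f w) = c * gsum n f := by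
  induction n generalizing f with
  | zero => rfl
  | succ n ih =>
    unfold gsum
    rw [Finset.mul_sum]
    exact Finset.sum_congr rfl fun c _ => ih _

lemma gsum_sum {ι : Type*} (n : ℕ) (s : Finset ι) (f : ι → Node K → ℝ) :
    gsum n (fun w => ∑ i ∈ s, f i w) = ∑ i ∈ s, gsum n (f i) := by
  induction n generalizing f with
  | zero => rfl
  | succ n ih =>
    unfold gsum
    rw [Finset.sum_comm]
    exact Finset.sum_congr rfl fun c _ => ih _

lemma gsum_hasDerivAt (n : ℕ) (F : ℝ → Node K → ℝ) (F' : Node K → ℝ) (t : ℝ)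
    (h : ∀ w, w.length = n → HasDerivAt (fun s => F s w) (F' w) t) :
    HasDerivAt (fun s => gsum n (F s)) (gsum n F') t := by
  induction n generalizing F F' with
  | zero => exact h [] rfl
  | succ n ih =>
    unfold gsum
    refine HasDerivAt.fun_sum fun c _ => ?_
    exact ih (fun s u => F s (c :: u)) (fun u => F' (c :: u)) fun w hw => h (c :: w) (by
      rw [List.length_cons, hw])

lemma gsum_continuousOn (n : ℕ) (F : ℝ → Node K → ℝ) (S : Set ℝ)
    (h : ∀ w, ContinuousOn (fun s => F s w) S) :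
    ContinuousOn (fun s => gsum n (F s)) S := by
  induction n generalizing F with
  | zero => exact h []
  | succ n ih =>
    unfold gsum
    exact continuousOn_finsetSum _ fun c _ => ih (fun s u => F s (c :: u)) fun w => h (c :: w)

/-- the full loss term -/
noncomputable def J (q : ℝ) (a b : Node K → ℝ) (M : ℕ) : ℝ :=
  q ^ (M + 1) * gsum M (fun w => ∑ c : Fin K, 2 * (a w - b w) * (a w * a (c :: w) -
    b w * b (c :: w)))

/-- the transfer term -/
noncomputable def H (q : ℝ) (a b : Node K → ℝ) (M : ℕ) : ℝ :=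
  q ^ (M + 1) * gsum M (fun w => ∑ c : Fin K, (a w ^ 2 - b w ^ 2) * (a (c :: w) - b (c :: w)))

lemma H_le_J {q : ℝ} (hq : 0 < q) {a b : Node K → ℝ} (ha : ∀ w, 0 ≤ a w) (hb : ∀ w, 0 ≤ b w)
    (M : ℕ) : H q a b M ≤ J q a b M := by
  unfold H J
  refine mul_le_mul_of_nonneg_left ?_ (by positivity)
  refine gsum_le fun w _ => Finset.sum_le_sum fun c _ => ?_
  have h1 := ha (c :: w)
  have h2 := hb (c :: w)
  have h3 : 0 ≤ (a w - b w) ^ 2 * (a (c :: w) + b (c :: w)) := by positivity
  nlinarith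

lemma E_zero {ν μ q : ℝ} (hν : 0 < ν) (a b : Node K → ℝ) :
    gsum 0 (fun w => 2 * (a w - b w) * (rhs ν μ q a w - rhs ν μ q b w)) ≤ - J q a b 0 := by
  unfold J gsum rhs gain
  simp only [List.length_nil, pow_zero, mul_one, add_zero, zero_add, pow_one]
  have h : (∑ c : Fin K, 2 * (a [] - b []) * (a [] * a [c] - b [] * b [c])) =
      2 * (a [] - b []) * (a [] * (∑ c : Fin K, a [c]) - b [] * (∑ c : Fin K, b [c])) := by
    rw [Finset.mul_sum, Finset.mul_sum, ← Finset.sum_sub_distrib, Finset.mul_sum]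
  rw [h]
  have h2 : 0 ≤ ν * (a [] - b []) ^ 2 := by positivity
  nlinarith

lemma E_succ {ν μ q : ℝ} (hν : 0 < ν) (hμ : 0 < μ) (a b : Node K → ℝ) (M : ℕ) :
    gsum (M + 1) (fun w => 2 * (a w - b w) * (rhs ν μ q a w - rhs ν μ q b w)) ≤
      2 * H q a b M - J q a b (M + 1) := by
  have h1 : gsum (M + 1) (fun w => 2 * (a w - b w) * (rhs ν μ q a w - rhs ν μ q b w)) ≤
      gsum (M + 1) (fun w => 2 * (a w - b w) * (gain q a w - gain q b w) +
        (-(q ^ (M + 1 + 1))) * ∑ c : Fin K, 2 * (a w - b w) * (a w * a (c :: w) -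
          b w * b (c :: w))) := by
    refine gsum_le fun w hw => ?_
    unfold rhs
    rw [hw]
    have h : (∑ c : Fin K, 2 * (a w - b w) * (a w * a (c :: w) - b w * b (c :: w))) =
        2 * (a w - b w) * (a w * (∑ c : Fin K, a (c :: w)) - b w * (∑ c : Fin K, b (c :: w))) := by
      rw [Finset.mul_sum, Finset.mul_sum, ← Finset.sum_sub_distrib, Finset.mul_sum]
    rw [h]
    have h2 : 0 ≤ ν * μ ^ (M + 1) * (a w - b w) ^ 2 := by positivity
    nlinarith
  refine h1.trans (le_of_eq ?_)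
  rw [gsum_add, gsum_mul]
  have h3 : gsum (M + 1) (fun w => 2 * (a w - b w) * (gain q a w - gain q b w)) =
      2 * H q a b M := by
    unfold H
    rw [gsum]
    rw [← gsum_sum, ← gsum_mul, ← gsum_mul]
    refine gsum_congr fun w hw => ?_
    rw [Finset.mul_sum, Finset.mul_sum]
    refine Finset.sum_congr rfl fun c _ => ?_
    unfold gain
    simp only
    rw [hw]
    ring
  rw [h3]
  unfold J
  ring

lemma key {ν μ q : ℝ} (hν : 0 < ν) (hμ : 0 < μ) (hq : 0 < q) {a b : Node K → ℝ}
    (ha : ∀ w, 0 ≤ a w) (hb : ∀ w, 0 ≤ b w) (M : ℕ) :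
    ∑ n ∈ range (M + 1), (1 / 2 : ℝ) ^ n *
      gsum n (fun w => 2 * (a w - b w) * (rhs ν μ q a w - rhs ν μ q b w)) ≤
      -((1 / 2 : ℝ) ^ M * J q a b M) := by
  induction M with
  | zero =>
    rw [Finset.sum_range_one, pow_zero, one_mul, one_mul]
    exact E_zero hν a b
  | succ M ih =>
    rw [Finset.sum_range_succ]
    have h1 := E_succ (q := q) hν hμ a b M
    have h2 := H_le_J hq ha hb M
    have h3 : (0 : ℝ) < (1 / 2) ^ M := by positivity
    have h4 : (1 / 2 : ℝ) ^ (M + 1) = (1 / 2) ^ M / 2 := by rw [pow_succ]; ring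
    rw [h4]
    have h5 := mul_le_mul_of_nonneg_left h1 (by positivity : (0 : ℝ) ≤ (1 / 2) ^ M / 2)
    have h6 := mul_le_mul_of_nonneg_left h2 h3.le
    nlinarith

lemma final {q : ℝ} (hq : 0 < q) {a b : Node K → ℝ}
    (ha : ∀ w, 0 ≤ a w) (hb : ∀ w, 0 ≤ b w) (M : ℕ) :
    -J q a b M ≤ q ^ (M + 1) *
      gsum M (fun w => ∑ c : Fin K, (a w ^ 2 * b (c :: w) + b w ^ 2 * a (c :: w))) := by
  unfold J
  rw [← mul_neg]
  refine mul_le_mul_of_nonneg_left ?_ (by positivity)
  rw [neg_eq_neg_one_mul, ← gsum_mul]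
  refine gsum_le fun w _ => ?_
  rw [Finset.mul_sum]
  refine Finset.sum_le_sum fun c _ => ?_
  have h1 := ha (c :: w)
  have h2 := hb (c :: w)
  have h3 : 0 ≤ a (c :: w) * (a w ^ 2 + (a w - b w) ^ 2) := by positivity
  have h4 : 0 ≤ b (c :: w) * (b w ^ 2 + (a w - b w) ^ 2) := by positivity
  nlinarith

/-- DY-DIF: weighted difference estimate -/
theorem main : Pool.Agent.W268.Dy.S_diff := by
  intro K ν μ q M X Y hν hμ hq hX hY h0 t ht
  set D : ℝ → ℝ := fun s => ∑ n ∈ range (M + 1), (1 / 2 : ℝ) ^ n *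
    gsum n (fun w => (X s w - Y s w) ^ 2) with hD
  set φ : ℝ → ℝ := fun s => (1 / 2 : ℝ) ^ M * q ^ (M + 1) *
    gsum M (fun w => ∑ c : Fin K, (X s w ^ 2 * Y s (c :: w) + Y s w ^ 2 * X s (c :: w))) with hφ
  have hD0 : D 0 = 0 := by
    rw [hD]
    refine Finset.sum_eq_zero fun n hn => ?_
    rw [Finset.mem_range] at hn
    have : gsum n (fun w => (X 0 w - Y 0 w) ^ 2) = gsum n (fun _ : Node K => (0 : ℝ)) := by
      refine gsum_congr fun w hw => ?_
      rw [h0 w (by omega), sub_self]
      norm_num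
    rw [this, gsum_zero, mul_zero]
  have hsub : Set.Icc 0 t ⊆ Set.Ici (0 : ℝ) := fun x hx => hx.1
  have hDc : ContinuousOn D (Set.Icc 0 t) := by
    refine continuousOn_finsetSum _ fun n _ => ContinuousOn.mul continuousOn_const ?_
    exact gsum_continuousOn n _ _ fun w =>
      (((hX.cont w).mono hsub).sub ((hY.cont w).mono hsub)).pow 2
  have hφc : ContinuousOn φ (Set.Icc 0 t) := by
    refine ContinuousOn.mul continuousOn_const ?_
    refine gsum_continuousOn M _ _ fun w => continuousOn_finsetSum _ fun c _ => ?_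
    exact ((((hX.cont w).mono hsub).pow 2).mul ((hY.cont (c :: w)).mono hsub)).add
      ((((hY.cont w).mono hsub).pow 2).mul ((hX.cont (c :: w)).mono hsub))
  have hDd : ∀ s ∈ Set.Ioo 0 t, HasDerivAt D (∑ n ∈ range (M + 1), (1 / 2 : ℝ) ^ n *
      gsum n (fun w => 2 * (X s w - Y s w) * (rhs ν μ q (X s) w - rhs ν μ q (Y s) w))) s := by
    intro s hs
    refine HasDerivAt.fun_sum fun n hn => ?_
    rw [Finset.mem_range] at hn
    refine HasDerivAt.const_mul _ ?_
    refine gsum_hasDerivAt n _ _ s fun w hw => ?_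
    have h1 := hX.ode w (by omega) s hs.1
    have h2 := hY.ode w (by omega) s hs.1
    have h3 := (h1.sub h2).pow 2
    refine h3.congr_deriv ?_
    simp
  have hfin := intervalIntegral.sub_le_integral_of_hasDeriv_right_of_le (g := D)
    (g' := fun s => ∑ n ∈ range (M + 1), (1 / 2 : ℝ) ^ n *
      gsum n (fun w => 2 * (X s w - Y s w) * (rhs ν μ q (X s) w - rhs ν μ q (Y s) w)))
    (φ := φ) ht hDc (fun s hs => (hDd s hs).hasDerivWithinAt)
    (hφc.integrableOn_compact isCompact_Icc) (fun s hs => ?_)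
  · rw [hD0, sub_zero] at hfin
    rw [hφ] at hfin
    simp only at hfin
    rw [intervalIntegral.integral_const_mul] at hfin
    exact hfin
  · have ha := hX.nonneg s hs.1.le
    have hb := hY.nonneg s hs.1.le
    refine (key hν hμ hq ha hb M).trans ?_
    rw [← mul_neg, hφ]
    simp only
    rw [mul_assoc]
    exact mul_le_mul_of_nonneg_left (final hq ha hb M) (by positivity)

end Pool.Agent.W578.Dy.Dif
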